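import Pool.Agent.Helper46.Dense.Plane
import Pool.Agent.Helper30.Brouwer.Packet
import Pool.Agent.Helper17.Dense.Pd
import Pool.Agent.Helper17.Dense.Mid
import Pool.Agent.Helper18.Loc.Final

/-!
The conjecture, with the best possible constant, for all graphs with `n ≤ 4 k + 2`.
-/
namespace Pool.Agent.Results.MP_62448f_co.DenseHalf

open Pool.Agent.Helper46.Peel

theorem result {V : Type*} [Fintype V] (p : V → Plane) (hp : Function.Injective p)
    (hgen : ∀ u v w : V, u ≠ v → u ≠ w → v ≠ w → ¬ Collinear ℝ ({p u, p v, p w} : Set Plane))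
    (G : SimpleGraph V) (n k : ℕ) (hn : Fintype.card V = n)
    (he : n * k < G.edgeSet.ncard) (hnk : n ≤ 4 * k + 2) :
    ∃ a b : Plane, a ≠ b ∧ (∀ v, p v ∉ line[ℝ, a, b]) ∧ k ^ 2 + k + 1 ≤ crossings p G a b :=
  Pool.Agent.Helper46.Dense.dense_final Pool.Agent.Helper30.Brouwer.kakutani
    Pool.Agent.Helper18.Loc.loc Pool.Agent.Helper17.Dense.pd Pool.Agent.Helper17.Dense.mid
    p hp hgen G hn he hnk

end Pool.Agent.Results.MP_62448f_co.DenseHalf
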