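import Pool.Agent.Helper46.Peel.Final

/-!
The conjecture for all `k ≤ 50`, and for general `k` whenever `k ^ 3 ≤ 2 n ^ 2`, or `n` is slightly
above `2 k`, or `n / k` is close to an integer or to a number `2 q / (q - 1)`.
-/
namespace Pool.Agent.Results.MP_62448f_co.ExactRanges

open Pool.Agent.Helper46.Peel

theorem result {V : Type*} [Fintype V] (p : V → Plane) (hp : Function.Injective p)
    (hgen : ∀ u v w : V, u ≠ v → u ≠ w → v ≠ w → ¬ Collinear ℝ ({p u, p v, p w} : Set Plane))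
    (G : SimpleGraph V) (n k : ℕ) (hn : Fintype.card V = n) (hk : 1 ≤ k)
    (he : n * k < G.edgeSet.ncard)
    (hrange : k ≤ 50 ∨ k ^ 3 ≤ 2 * n ^ 2 ∨ (n - 2 * k) ^ 4 ≤ 64 * k ^ 3 ∨
      (∃ N : ℕ, ((n : ℤ) - N * k) ^ 2 ≤ (N - 1) * n) ∨
      (∃ q : ℕ, (((q : ℤ) - 1) * n - 2 * q * k) ^ 2 ≤ 2 * q * (q - 1) * n)) :
    ∃ a b : Plane, a ≠ b ∧ (∀ v, p v ∉ line[ℝ, a, b]) ∧ k ^ 2 ≤ crossings p G a b := by
  by_contra hcon
  push Not at hcon
  have hpos : 0 < k ^ 2 := by positivity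
  obtain ⟨-, h, -⟩ := final_core p hp hgen G hn hk he (c := k ^ 2 - 1) (by
    intro a b hab hav
    have := hcon a b hab hav
    omega)
  have := h hrange
  omega

end Pool.Agent.Results.MP_62448f_co.ExactRanges
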