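import Pool.Agent.Helper46.Peel.Final

/-!
Every geometric graph on `n` points in general position with more than `n k` edges has a line
crossing at least `(48/49) k ^ 2` of its edges, for all `n` and all `k ≥ 1`.
-/
namespace Pool.Agent.Results.MP_62448f_co.UniformRatio

open Pool.Agent.Helper46.Peel

theorem result {V : Type*} [Fintype V] (p : V → Plane) (hp : Function.Injective p)
    (hgen : ∀ u v w : V, u ≠ v → u ≠ w → v ≠ w → ¬ Collinear ℝ ({p u, p v, p w} : Set Plane))
    (G : SimpleGraph V) (n k : ℕ) (hn : Fintype.card V = n) (hk : 1 ≤ k)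
    (he : n * k < G.edgeSet.ncard) :
    ∃ a b : Plane, a ≠ b ∧ (∀ v, p v ∉ line[ℝ, a, b]) ∧
      48 * k ^ 2 ≤ 49 * crossings p G a b := by
  by_contra hcon
  push Not at hcon
  have hpos : 0 < k ^ 2 := by positivity
  obtain ⟨h, -, -⟩ := final_core p hp hgen G hn hk he (c := (48 * k ^ 2 - 1) / 49) (by
    intro a b hab hav
    have := hcon a b hab hav
    omega)
  omega

end Pool.Agent.Results.MP_62448f_co.UniformRatio
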